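import Pool.Agent.Y264.QR.Stm

/-!
# The abstract theorem
-/

set_option autoImplicit false

open Set Filter Topology MeasureTheory
open scoped Real ContDiff
open Pool.Agent.Y262.QE

noncomputable section

namespace Pool.Agent.Y378.QR

open Pool.Agent.Y264.QR

section lin

variable {M : Type} [MetricSpace M] [CompactSpace M] [MeasurableSpace M] [BorelSpace M]
  {μ : Measure M} [IsFiniteMeasure μ] {H : Type} [NormedAddCommGroup H] [InnerProductSpace ℝ H]
  {i : H →L[ℝ] Lp ℝ 2 μ}

lemma cint (f : C(M, ℝ)) {w : M → ℝ} (hw : Integrable w μ) : Integrable (fun x => f x * w x) μ :=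
  hw.bdd_mul (c := ‖f‖) f.continuous.aestronglyMeasurable
    (Eventually.of_forall fun x => f.norm_coe_le_norm x)

lemma expc (φ : C(M, ℝ)) : Continuous fun x => Real.exp (φ x) := Real.continuous_exp.comp φ.continuous

lemma wint (φ : C(M, ℝ)) (v : H) : Integrable (fun x => Real.exp (φ x) * (i v x) ^ 2) μ :=
  cint (⟨fun x => Real.exp (φ x), expc φ⟩ : C(M, ℝ)) (Lp.memLp (i v)).integrable_sq

lemma kap_add (f g φ : C(M, ℝ)) (v : H) :
    kap μ i (f + g) φ v = kap μ i f φ v + kap μ i g φ v := by
  unfold kap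
  rw [← integral_add (cint f (wint φ v)) (cint g (wint φ v))]
  refine integral_congr_ae (Eventually.of_forall fun x => ?_)
  simp only [ContinuousMap.add_apply]
  ring

lemma kap_smul (c : ℝ) (f φ : C(M, ℝ)) (v : H) :
    kap μ i (c • f) φ v = c * kap μ i f φ v := by
  unfold kap
  rw [← integral_const_mul]
  refine integral_congr_ae (Eventually.of_forall fun x => ?_)
  simp only [ContinuousMap.smul_apply, smul_eq_mul]
  ring

lemma kap_zero (φ : C(M, ℝ)) (v : H) : kap μ i 0 φ v = 0 := by
  have := kap_smul (μ := μ) (i := i) 0 (0 : C(M, ℝ)) φ v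
  rwa [zero_smul, zero_mul] at this

lemma kap_sub (f g φ : C(M, ℝ)) (v : H) :
    kap μ i (f - g) φ v = kap μ i f φ v - kap μ i g φ v := by
  have h1 := kap_add (μ := μ) (i := i) (f - g) g φ v
  rw [sub_add_cancel] at h1
  linarith

lemma eint (φ : C(M, ℝ)) : Integrable (fun x => Real.exp (φ x)) μ := by
  have := cint (μ := μ) (⟨fun x => Real.exp (φ x), expc φ⟩ : C(M, ℝ)) (integrable_const (1 : ℝ))
  simpa using this

lemma avg_add (f g φ : C(M, ℝ)) : avg μ (f + g) φ = avg μ f φ + avg μ g φ := by
  unfold avg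
  rw [← add_div, ← integral_add (cint f (eint φ)) (cint g (eint φ))]
  congr 1
  refine integral_congr_ae (Eventually.of_forall fun x => ?_)
  simp only [ContinuousMap.add_apply]
  ring

lemma avg_smul (c : ℝ) (f φ : C(M, ℝ)) : avg μ (c • f) φ = c * avg μ f φ := by
  unfold avg
  rw [← mul_div_assoc, ← integral_const_mul]
  congr 1
  refine integral_congr_ae (Eventually.of_forall fun x => ?_)
  simp only [ContinuousMap.smul_apply, smul_eq_mul]
  ring

lemma avg_zero (φ : C(M, ℝ)) : avg μ 0 φ = 0 := by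
  have := avg_smul (μ := μ) 0 (0 : C(M, ℝ)) φ
  rwa [zero_smul, zero_mul] at this

end lin

theorem t : StDr → StQL → StCM → StFm → StLip → StAbs := by
  intro hDr hQL hCM hFm hLip
  intro M _ _ _ _ μ _ _ _ H _ _ i a b hSf hB hW e E hEg P _ S hS hq
  -- the forms
  obtain ⟨b', hB', hFmb, hpos, hcomp, hk⟩ := hFm M μ H i a hSf
  have hbb : b' = b := by
    funext φ
    ext u v
    rw [hB' φ u v, hB φ u v]
  subst hbb
  have hbd : ∀ (f φ : C(M, ℝ)) (j : ℕ), |kap μ i f φ (e φ j)| ≤ ‖f‖ := by
    intro f φ j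
    obtain ⟨k, -, hk2, -⟩ := hk f
    have h1 := hk2 φ (e φ j)
    rw [h1.1, (hEg φ).orth j j, if_pos rfl, mul_one] at h1
    exact h1.2
  -- the index from which on the eigenvalues are positive
  obtain ⟨-, -, -, -, hdich⟩ := hLip M μ H a b' hFmb hcomp
  obtain ⟨J, hJ⟩ : ∃ J : ℕ, ∀ j, J ≤ j → ∀ φ, 0 < Ev a (b' φ) j := by
    have h1 := hW 0
    have h2 : (0 : ℝ) < 4 * π / ∫ x, Real.exp ((0 : C(M, ℝ)) x) ∂μ := by
      have := hpos 0
      positivity
    obtain ⟨J, hJ⟩ := eventually_atTop.mp (h1.eventually (lt_mem_nhds h2))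
    refine ⟨J, fun j hj => ?_⟩
    rcases hdich j with h3 | h3
    · have h4 := hJ j hj
      rw [h3 0, zero_div] at h4
      exact absurd h4 (lt_irrefl _)
    · exact h3
  obtain ⟨-, havc, havb, -⟩ := hCM M μ
  -- density of the span
  have hap : ∀ f : C(M, ℝ), ∀ ε : ℝ, 0 < ε → ∃ g ∈ Submodule.span ℝ S, ‖f - g‖ < ε := by
    intro f ε hε
    obtain ⟨g, hg, hfg⟩ := Metric.dense_iff.mp hS f ε hε
    refine ⟨g, hfg, ?_⟩
    rw [Metric.mem_ball, dist_comm, dist_eq_norm] at hg
    exact hg
  -- measurability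
  have hmeas : ∀ (f : C(M, ℝ)) (j : ℕ), J ≤ j →
      AEStronglyMeasurable (fun φ => kap μ i f φ (e φ j)) P := by
    intro f j hj
    let W : Submodule ℝ C(M, ℝ) :=
      { carrier := {f | AEStronglyMeasurable (fun φ => kap μ i f φ (e φ j)) P}
        zero_mem' := by
          change AEStronglyMeasurable (fun φ => kap μ i 0 φ (e φ j)) P
          simp only [kap_zero]
          exact aestronglyMeasurable_const
        add_mem' := fun {f g} hf hg => by
          change AEStronglyMeasurable (fun φ => kap μ i (f + g) φ (e φ j)) P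
          simp only [kap_add]
          exact AEStronglyMeasurable.add hf hg
        smul_mem' := fun c f hf => by
          change AEStronglyMeasurable (fun φ => kap μ i (c • f) φ (e φ j)) P
          simp only [kap_smul]
          exact AEStronglyMeasurable.const_mul hf c }
    have hW : Submodule.span ℝ S ≤ W := by
      rw [Submodule.span_le]
      intro h hh
      exact (hDr M μ H i a b' hSf hB hW e E hEg P h (hq h hh)).1 j (hJ j hj)
    choose g hg hg2 using fun n : ℕ => hap f (1 / ((n : ℝ) + 1)) (by positivity)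
    refine aestronglyMeasurable_of_tendsto_ae atTop (f := fun n φ => kap μ i (g n) φ (e φ j))
      (fun n => hW (hg n)) (Eventually.of_forall fun φ => ?_)
    rw [tendsto_iff_norm_sub_tendsto_zero]
    refine squeeze_zero (fun n => norm_nonneg _) (fun n => ?_) tendsto_one_div_add_atTop_nhds_zero_nat
    rw [← kap_sub, Real.norm_eq_abs]
    refine (hbd _ φ j).trans ?_
    rw [norm_sub_rev]
    exact (hg2 n).le
  -- convergence
  have hconv : ∀ f : C(M, ℝ), ∀ χ : C(M, ℝ) → ℝ, Integrable χ P →
      Tendsto (fun j => ∫ φ, χ φ * kap μ i f φ (e φ j) ∂P) atTop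
        (𝓝 (∫ φ, χ φ * avg μ f φ ∂P)) := by
    intro f χ hχ
    have hi1 : ∀ (f : C(M, ℝ)) (j : ℕ), J ≤ j →
        Integrable (fun φ => χ φ * kap μ i f φ (e φ j)) P := fun f j hj =>
      hχ.mul_bdd (c := ‖f‖) (hmeas f j hj) (Eventually.of_forall fun φ => hbd f φ j)
    have hi2 : ∀ f : C(M, ℝ), Integrable (fun φ => χ φ * avg μ f φ) P := fun f =>
      hχ.mul_bdd (c := ‖f‖) (havc f).aestronglyMeasurable
        (Eventually.of_forall fun φ => havb f φ)
    let T : ℕ → C(M, ℝ) → ℝ := fun j f =>
      ∫ φ, χ φ * kap μ i f φ (e φ (j + J)) ∂P - ∫ φ, χ φ * avg μ f φ ∂P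
    have hTadd : ∀ j f g, T j (f + g) = T j f + T j g := by
      intro j f g
      change _ - _ = (_ - _) + (_ - _)
      have e1 : ∫ φ, χ φ * kap μ i (f + g) φ (e φ (j + J)) ∂P =
          ∫ φ, χ φ * kap μ i f φ (e φ (j + J)) ∂P + ∫ φ, χ φ * kap μ i g φ (e φ (j + J)) ∂P := by
        rw [← integral_add (hi1 f _ (Nat.le_add_left J j)) (hi1 g _ (Nat.le_add_left J j))]
        refine integral_congr_ae (Eventually.of_forall fun φ => ?_)
        simp only [kap_add]
        ring
      have e2 : ∫ φ, χ φ * avg μ (f + g) φ ∂P =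
          ∫ φ, χ φ * avg μ f φ ∂P + ∫ φ, χ φ * avg μ g φ ∂P := by
        rw [← integral_add (hi2 f) (hi2 g)]
        refine integral_congr_ae (Eventually.of_forall fun φ => ?_)
        simp only [avg_add]
        ring
      rw [e1, e2]
      ring
    have hTsmul : ∀ j (c : ℝ) f, T j (c • f) = c * T j f := by
      intro j c f
      change _ - _ = c * (_ - _)
      have e1 : ∫ φ, χ φ * kap μ i (c • f) φ (e φ (j + J)) ∂P =
          c * ∫ φ, χ φ * kap μ i f φ (e φ (j + J)) ∂P := by
        rw [← integral_const_mul]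
        refine integral_congr_ae (Eventually.of_forall fun φ => ?_)
        simp only [kap_smul]
        ring
      have e2 : ∫ φ, χ φ * avg μ (c • f) φ ∂P = c * ∫ φ, χ φ * avg μ f φ ∂P := by
        rw [← integral_const_mul]
        refine integral_congr_ae (Eventually.of_forall fun φ => ?_)
        simp only [avg_smul]
        ring
      rw [e1, e2]
      ring
    set N : ℝ := ∫ φ, |χ φ| ∂P with hN
    have hN0 : 0 ≤ N := integral_nonneg fun φ => abs_nonneg _
    have hTbd : ∀ j f, |T j f| ≤ 2 * (‖f‖ * N) := by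
      intro j f
      have key : ∀ X : C(M, ℝ) → ℝ, (∀ φ, |X φ| ≤ ‖f‖) → |∫ φ, χ φ * X φ ∂P| ≤ ‖f‖ * N := by
        intro X hX
        rw [hN, ← integral_const_mul, ← Real.norm_eq_abs]
        refine norm_integral_le_of_norm_le (hχ.abs.const_mul _) (Eventually.of_forall fun φ => ?_)
        rw [Real.norm_eq_abs, abs_mul, mul_comm]
        exact mul_le_mul_of_nonneg_right (hX φ) (abs_nonneg _)
      have k1 := key _ (fun φ => hbd f φ (j + J))
      have k2 := key _ (fun φ => havb f φ)
      calc |T j f| ≤ |∫ φ, χ φ * kap μ i f φ (e φ (j + J)) ∂P| + |∫ φ, χ φ * avg μ f φ ∂P| :=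
            abs_sub _ _
        _ ≤ _ := by linarith
    let W : Submodule ℝ C(M, ℝ) :=
      { carrier := {f | Tendsto (fun j => T j f) atTop (𝓝 0)}
        zero_mem' := by
          change Tendsto (fun j => T j 0) atTop (𝓝 0)
          have : ∀ j, T j 0 = 0 := fun j => by
            have := hTsmul j 0 0
            rwa [zero_smul, zero_mul] at this
          simp only [this]
          exact tendsto_const_nhds
        add_mem' := fun {f g} hf hg => by
          change Tendsto (fun j => T j (f + g)) atTop (𝓝 0)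
          simp only [hTadd]
          have := Tendsto.add hf hg
          rwa [add_zero] at this
        smul_mem' := fun c f hf => by
          change Tendsto (fun j => T j (c • f)) atTop (𝓝 0)
          simp only [hTsmul]
          have := Tendsto.const_mul c hf
          rwa [mul_zero] at this }
    have hWS : Submodule.span ℝ S ≤ W := by
      rw [Submodule.span_le]
      intro h hh
      have h1 := (hDr M μ H i a b' hSf hB hW e E hEg P h (hq h hh)).2 χ hχ
      have h2 := ((tendsto_add_atTop_iff_nat J).mpr h1).sub_const (∫ φ, χ φ * avg μ h φ ∂P)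
      rw [sub_self] at h2
      exact h2
    have hT0 : Tendsto (fun j => T j f) atTop (𝓝 0) := by
      rw [Metric.tendsto_atTop]
      intro ε hε
      obtain ⟨g, hg, hfg⟩ := hap f (ε / (4 * (N + 1))) (by positivity)
      obtain ⟨j0, hj0⟩ := Metric.tendsto_atTop.mp (show Tendsto (fun j => T j g) atTop (𝓝 0) from
        hWS hg) (ε / 2) (by positivity)
      refine ⟨j0, fun j hj => ?_⟩
      have h1 := hj0 j hj
      rw [dist_zero_right, Real.norm_eq_abs] at h1 ⊢
      have h2 : T j f = T j (f - g) + T j g := by rw [← hTadd, sub_add_cancel]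
      have h3 := hTbd j (f - g)
      have h4 : ‖f - g‖ * N ≤ ε / 4 := by
        calc ‖f - g‖ * N ≤ (ε / (4 * (N + 1))) * (N + 1) :=
              mul_le_mul hfg.le (by linarith) hN0 (by positivity)
          _ = ε / 4 := by field_simp
      rw [h2]
      calc |T j (f - g) + T j g| ≤ |T j (f - g)| + |T j g| := abs_add_le _ _
        _ < ε := by linarith
    have h5 := hT0.add_const (∫ φ, χ φ * avg μ f φ ∂P)
    rw [zero_add] at h5
    rw [← tendsto_add_atTop_iff_nat J]
    refine h5.congr fun j => ?_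
    change _ - _ + _ = _
    ring
  refine ⟨⟨J, fun f j hj => hmeas f j hj⟩, fun f => ⟨hconv f, ?_⟩⟩
  intro J' hJ'
  have hql := hQL C(M, ℝ) P (fun j φ => kap μ i f φ (e φ (j + J))) (fun φ => avg μ f φ) ‖f‖
    (fun j => hmeas f _ (Nat.le_add_left J j)) (havc f).aestronglyMeasurable
    (fun j => Eventually.of_forall fun φ => hbd f φ _) (Eventually.of_forall fun φ => havb f φ)
    (fun χ hχ => (tendsto_add_atTop_iff_nat J).mpr (hconv f χ hχ))
    (fun k => J' k - J) (tendsto_sub_atTop_nat J |>.comp hJ')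
  filter_upwards [hql] with φ hφ L hL
  apply hφ L
  refine hL.congr' ?_
  filter_upwards [hJ'.eventually (eventually_ge_atTop J)] with k hk
  rw [Nat.sub_add_cancel hk]

end Pool.Agent.Y378.QR
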