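import Pool.Agent.Y264.QR.Stm2
import Pool.Agent.Y592.QE.Spec
import Pool.Agent.Y274.QE.Fin

/-!
# Weyl's law for the eigenvalues
-/

set_option autoImplicit false

open Set Filter Topology MeasureTheory
open scoped Real ContDiff
open Pool.Agent.Y262.QE

noncomputable section

namespace Pool.Agent.Y378.QR

open Pool.Agent.Y264.QR Pool.Agent.Y592.QE

section forms

variable {H : Type} [NormedAddCommGroup H] [InnerProductSpace ℝ H]

lemma ev_lower {a b : H →L[ℝ] H →L[ℝ] ℝ} (hF : Fm a b) {N : ℕ} (l : Fin N → H →L[ℝ] ℝ) {s : ℝ}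
    (hs : 0 < s) (h : ∀ v, b v v ≤ s * a v v + ∑ i, (l i v) ^ 2) {j : ℕ} (hN : N < j + 1) :
    1 / s ≤ Ev a b j := by
  apply le_csInf (nonempty_set hF j)
  rintro lam ⟨h0, V, hV, hVa⟩
  obtain ⟨v, hvV, hv0, hlv⟩ := exists_ker hV l hN
  have h1 := hVa v hvV
  have h2 := b_pos hF hv0 h1
  have h3 := h v
  have h4 : ∑ i, (l i v) ^ 2 = 0 := Finset.sum_eq_zero fun i _ => by rw [hlv i]; norm_num
  rw [h4, add_zero] at h3
  have h5 : b v v ≤ (s * lam) * b v v := by
    calc b v v ≤ s * a v v := h3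
      _ ≤ s * (lam * b v v) := mul_le_mul_of_nonneg_left h1 hs.le
      _ = _ := by ring
  have h6 : 1 ≤ s * lam := by
    by_contra hc
    push Not at hc
    nlinarith
  rw [div_le_iff₀ hs]
  linarith

lemma ev_upper {a b : H →L[ℝ] H →L[ℝ] ℝ} {N : ℕ} (v : Fin N → H) {δ lam : ℝ}
    (hδ : 0 < δ) (hlam : 0 ≤ lam)
    (h1 : ∀ c : Fin N → ℝ, δ * ∑ i, (c i) ^ 2 ≤ b (∑ i, c i • v i) (∑ i, c i • v i))
    (h2 : ∀ c : Fin N → ℝ, a (∑ i, c i • v i) (∑ i, c i • v i) ≤
      lam * b (∑ i, c i • v i) (∑ i, c i • v i)) {j : ℕ} (hj : j + 1 ≤ N) : Ev a b j ≤ lam := by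
  refine csInf_le (bdd_set a b j) ⟨hlam, ?_⟩
  have hli : LinearIndependent ℝ v := by
    rw [Fintype.linearIndependent_iff]
    intro c hc k
    have h3 := h1 c
    rw [hc, map_zero] at h3
    have h4 : ∑ i, (c i) ^ 2 ≤ 0 := by
      by_contra hn
      push Not at hn
      have : 0 < δ * ∑ i, (c i) ^ 2 := mul_pos hδ hn
      linarith
    have h5 : (c k) ^ 2 ≤ ∑ i, (c i) ^ 2 :=
      Finset.single_le_sum (f := fun i => (c i) ^ 2) (fun i _ => sq_nonneg _) (Finset.mem_univ k)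
    nlinarith [sq_nonneg (c k)]
  let w : Fin (j + 1) → H := fun i => v (Fin.castLE hj i)
  have hlw : LinearIndependent ℝ w := hli.comp _ (Fin.castLE_injective hj)
  refine ⟨Submodule.span ℝ (Set.range w), ?_, ?_⟩
  · rw [finrank_span_eq_card hlw, Fintype.card_fin]
  · intro x hx
    have hx2 : x ∈ Submodule.span ℝ (Set.range v) := by
      refine Submodule.span_mono ?_ hx
      rintro _ ⟨i, rfl⟩
      exact ⟨_, rfl⟩
    obtain ⟨c, rfl⟩ := (Submodule.mem_span_range_iff_exists_fun ℝ).mp hx2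
    exact h2 c

end forms

/-- the representative of a linear combination -/
lemma coe_sum {M : Type} [MeasurableSpace M] {μ : Measure M} {E : Type} [NormedAddCommGroup E]
    [NormedSpace ℝ E] {N : ℕ} (c : Fin N → ℝ) (f : Fin N → Lp E 2 μ) (g : Fin N → M → E)
    (h : ∀ i, (f i : M → E) =ᵐ[μ] g i) (s : Finset (Fin N)) :
    ((∑ i ∈ s, c i • f i : Lp E 2 μ) : M → E) =ᵐ[μ] fun x => ∑ i ∈ s, c i • g i x := by
  classical
  induction s using Finset.induction_on with
  | empty =>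
    simp only [Finset.sum_empty]
    exact Lp.coeFn_zero E 2 μ
  | insert k s hk ih =>
    rw [Finset.sum_insert hk]
    filter_upwards [Lp.coeFn_add (c k • f k) (∑ i ∈ s, c i • f i), Lp.coeFn_smul (c k) (f k), h k,
      ih] with x h1 h2 h3 h4
    rw [h1, Pi.add_apply, h2, Pi.smul_apply, h3, h4, Finset.sum_insert hk]

theorem wl : StLo → StUp → StDenF → StFm → StWl := by
  intro hLo hUp hDen hFm M _ _ _ _ μ D hD hM i a b hSf hi ha hB
  have hfin : IsFiniteMeasure μ := (Pool.Agent.Y274.QE.Fin.fin M μ D hD).1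
  obtain ⟨b', hB', hFmb, hpos, -, -⟩ := hFm M μ (HF D μ) i a hSf
  have hbb : b' = b := by
    funext φ
    ext u v
    rw [hB' φ u v, hB φ u v]
  subst hbb
  intro φ
  set A : ℝ := ∫ x, Real.exp (φ x) ∂μ with hA
  have hA0 : 0 < A := hpos φ
  set c0 : ℝ := 4 * π / A with hc0
  have hc0pos : 0 < c0 := by positivity
  obtain ⟨hDen1, hDen2⟩ := hDen M μ D hD
  -- the forms on pairs
  have hbv : ∀ (v : HF D μ) (F : M → ℝ), (v.1.fst : M → ℝ) =ᵐ[μ] F →
      b' φ v v = ∫ x, Real.exp (φ x) * (F x) ^ 2 ∂μ := by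
    intro v F hF
    rw [hB φ v v, hi v]
    refine integral_congr_ae ?_
    filter_upwards [hF] with x hx
    rw [hx, pow_two]
  have hav : ∀ (v : HF D μ) (G : M → ℂ), (v.1.snd : M → ℂ) =ᵐ[μ] G →
      a v v = ∫ x, ‖G x‖ ^ 2 ∂μ := by
    intro v G hG
    rw [ha v v, L2.inner_def]
    refine integral_congr_ae ?_
    filter_upwards [hG] with x hx
    rw [hx, real_inner_self_eq_norm_sq]
  -- lower bound
  have hlow : ∀ ε : ℝ, 0 < ε → ∃ Λ₀ : ℝ, ∀ Λ : ℝ, Λ₀ ≤ Λ → 0 < Λ → ∀ j : ℕ,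
      (1 + ε) * Λ * A / (4 * π) < (j : ℝ) + 1 → Λ / (1 + ε) ≤ Ev a (b' φ) j := by
    intro ε hε
    obtain ⟨Λ₀, hΛ₀⟩ := hLo M μ D hD hM φ ε hε
    refine ⟨Λ₀, fun Λ hΛ hΛp j hj => ?_⟩
    obtain ⟨N, κ, hN, hκ, hineq⟩ := hΛ₀ Λ hΛ
    let l : Fin N → HF D μ →L[ℝ] ℝ := fun k => (innerSL ℝ ((hκ k).toLp (κ k))).comp i
    have hl : ∀ (k : Fin N) (v : HF D μ) (F : M → ℝ), (v.1.fst : M → ℝ) =ᵐ[μ] F →
        l k v = ∫ x, F x * κ k x ∂μ := by
      intro k v F hF
      change inner ℝ ((hκ k).toLp (κ k)) (i v) = _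
      rw [hi v, L2.inner_def]
      refine integral_congr_ae ?_
      filter_upwards [hF, (hκ k).coeFn_toLp] with x hx hx2
      rw [hx, hx2]
      simp
    have h1ε : 0 < 1 + ε := by linarith
    have hs : 0 < (1 + ε) * Λ⁻¹ := by positivity
    have hall : ∀ v : HF D μ, b' φ v v ≤ (1 + ε) * Λ⁻¹ * a v v + ∑ k, (l k v) ^ 2 := by
      intro v
      obtain ⟨F, f, hF, hf⟩ := hDen2 v.1 v.2
      let w : ℕ → HF D μ := fun k => ⟨f k, (hF k).2.1⟩
      have hw : Tendsto w atTop (𝓝 v) := by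
        rw [tendsto_subtype_rng]
        exact hf
      have hk : ∀ k, b' φ (w k) (w k) ≤
          (1 + ε) * Λ⁻¹ * a (w k) (w k) + ∑ m, (l m (w k)) ^ 2 := by
        intro k
        obtain ⟨h1, h2, h3, h4⟩ := hF k
        rw [hbv (w k) (F k) h3, hav (w k) (D.gr (F k)) h4]
        refine (hineq (F k) h1).trans (le_of_eq ?_)
        congr 1
        refine Finset.sum_congr rfl fun m _ => ?_
        rw [hl m (w k) (F k) h3]
      have t1 : Tendsto (fun k => b' φ (w k) (w k)) atTop (𝓝 (b' φ v v)) := by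
        have : Continuous fun v : HF D μ => b' φ v v := by fun_prop
        exact (this.tendsto v).comp hw
      have t2 : Tendsto (fun k => (1 + ε) * Λ⁻¹ * a (w k) (w k) + ∑ m, (l m (w k)) ^ 2) atTop
          (𝓝 ((1 + ε) * Λ⁻¹ * a v v + ∑ m, (l m v) ^ 2)) := by
        have : Continuous fun v : HF D μ =>
            (1 + ε) * Λ⁻¹ * a v v + ∑ m, (l m v) ^ 2 := by fun_prop
        exact (this.tendsto v).comp hw
      exact le_of_tendsto_of_tendsto' t1 t2 hk
    have hNj : N < j + 1 := by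
      have : (N : ℝ) < ((j + 1 : ℕ) : ℝ) := by
        push_cast
        exact lt_of_le_of_lt hN hj
      exact_mod_cast this
    have h5 := ev_lower (hFmb φ) l hs hall hNj
    refine le_trans (le_of_eq ?_) h5
    field_simp
  -- upper bound
  have hup : ∀ ε : ℝ, 0 < ε → ∃ Λ₀ : ℝ, ∀ Λ : ℝ, Λ₀ ≤ Λ → 0 < Λ → ∀ j : ℕ,
      (j : ℝ) + 1 ≤ (1 - ε) * Λ * A / (4 * π) → Ev a (b' φ) j ≤ (1 + ε) * Λ := by
    intro ε hε
    obtain ⟨Λ₀, hΛ₀⟩ := hUp M μ D hD hM φ ε hε
    refine ⟨Λ₀, fun Λ hΛ hΛp j hj => ?_⟩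
    obtain ⟨N, F, δ, hN, hF, hδ, hineq⟩ := hΛ₀ Λ hΛ
    choose v hvm hv1 hv2 using fun k => hDen1 (F k) (hF k)
    let w : Fin N → HF D μ := fun k => ⟨v k, hvm k⟩
    have hfst : ∀ c : Fin N → ℝ, ((∑ k, c k • w k : HF D μ).1.fst : M → ℝ) =ᵐ[μ]
        fun x => ∑ k, c k * F k x := by
      intro c
      have h1 : (∑ k, c k • w k : HF D μ).1.fst = ∑ k, c k • (v k).fst := by
        rw [← hi, map_sum]
        refine Finset.sum_congr rfl fun k _ => ?_
        rw [map_smul, hi]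
      rw [h1]
      have h2 := coe_sum c (fun k => (v k).fst) F hv1 Finset.univ
      refine h2.trans (Eventually.of_forall fun x => ?_)
      simp only [smul_eq_mul]
    have hsnd : ∀ c : Fin N → ℝ, ((∑ k, c k • w k : HF D μ).1.snd : M → ℂ) =ᵐ[μ]
        fun x => ∑ k, c k • D.gr (F k) x := by
      intro c
      have h1 : (∑ k, c k • w k : HF D μ).1.snd = ∑ k, c k • (v k).snd := by
        have e1 : (∑ k, c k • w k : HF D μ).1 = ∑ k, c k • v k := by
          rw [AddSubmonoidClass.coe_finset_sum]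
          rfl
        rw [e1]
        change (WithLp.sndₗ (𝕜 := ℝ) 2 (Lp ℝ 2 μ) (Lp ℂ 2 μ)) (∑ k, c k • v k) = _
        rw [map_sum]
        refine Finset.sum_congr rfl fun k _ => ?_
        rw [map_smul]
        rfl
      rw [h1]
      exact coe_sum c (fun k => (v k).snd) (fun k => D.gr (F k)) hv2 Finset.univ
    have hNj : j + 1 ≤ N := by
      have : ((j + 1 : ℕ) : ℝ) ≤ (N : ℝ) := by
        push_cast
        exact hj.trans hN
      exact_mod_cast this
    refine ev_upper w hδ (by positivity) ?_ ?_ hNj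
    · intro c
      rw [hbv _ _ (hfst c)]
      exact (hineq c).1
    · intro c
      rw [hbv _ _ (hfst c), hav _ _ (hsnd c)]
      exact (hineq c).2
  -- the limit
  have hj1 : Tendsto (fun j : ℕ => (j : ℝ) / ((j : ℝ) + 1)) atTop (𝓝 1) := by
    have h1 := tendsto_one_div_add_atTop_nhds_zero_nat (𝕜 := ℝ)
    have h2 := h1.const_sub 1
    rw [sub_zero] at h2
    refine h2.congr fun j => ?_
    have : (j : ℝ) + 1 ≠ 0 := by positivity
    field_simp
    ring
  change Tendsto (fun j : ℕ => Ev a (b' φ) j / (j + 1)) atTop (𝓝 c0)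
  rw [tendsto_order]
  constructor
  · intro a' ha'
    -- choose `ε`
    have hcont : Tendsto (fun ε : ℝ => c0 / (1 + ε) ^ 2) (𝓝[>] 0) (𝓝 c0) := by
      have h1 : ContinuousAt (fun ε : ℝ => c0 / (1 + ε) ^ 2) 0 := by
        refine ContinuousAt.div continuousAt_const (by fun_prop) (by norm_num)
      have h2 : Tendsto (fun ε : ℝ => c0 / (1 + ε) ^ 2) (𝓝 0) (𝓝 (c0 / (1 + 0) ^ 2)) := h1
      rw [add_zero, one_pow, div_one] at h2
      exact h2.mono_left nhdsWithin_le_nhds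
    obtain ⟨ε, hε1, hε⟩ := ((hcont.eventually (lt_mem_nhds ha')).and self_mem_nhdsWithin).exists
    have hε0 : (0 : ℝ) < ε := hε
    obtain ⟨Λ₀, hΛ₀⟩ := hlow ε hε0
    have h3 : Tendsto (fun j : ℕ => (j : ℝ) / ((j : ℝ) + 1) * (c0 / (1 + ε) ^ 2)) atTop
        (𝓝 (c0 / (1 + ε) ^ 2)) := by
      have := hj1.mul_const (c0 / (1 + ε) ^ 2)
      rwa [one_mul] at this
    have h4 : Tendsto (fun j : ℕ => (c0 / (1 + ε)) * (j : ℝ)) atTop atTop :=
      tendsto_natCast_atTop_atTop.const_mul_atTop (by positivity)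
    filter_upwards [h3.eventually (lt_mem_nhds hε1), h4.eventually (eventually_ge_atTop Λ₀),
      eventually_gt_atTop 0] with j hj1 hj2 hj3
    have hjp : (0 : ℝ) < j := by exact_mod_cast hj3
    have h5 := hΛ₀ ((c0 / (1 + ε)) * j) hj2 (by positivity) j (by
      have : (1 + ε) * (c0 / (1 + ε) * ↑j) * A / (4 * π) = j := by
        rw [hc0]
        have : (1 + ε) ≠ 0 := by positivity
        have := Real.pi_ne_zero
        field_simp
      rw [this]
      linarith)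
    refine lt_of_lt_of_le hj1 ?_
    rw [le_div_iff₀ (by positivity)]
    refine le_trans (le_of_eq ?_) h5
    have : (1 + ε) ≠ 0 := by positivity
    have : (j : ℝ) + 1 ≠ 0 := by positivity
    field_simp
  · intro a' ha'
    have hcont : Tendsto (fun ε : ℝ => c0 * (1 + ε) / (1 - ε)) (𝓝[>] 0) (𝓝 c0) := by
      have h1 : ContinuousAt (fun ε : ℝ => c0 * (1 + ε) / (1 - ε)) 0 := by
        refine ContinuousAt.div (by fun_prop) (by fun_prop) (by norm_num)
      have h2 : Tendsto (fun ε : ℝ => c0 * (1 + ε) / (1 - ε)) (𝓝 0)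
        (𝓝 (c0 * (1 + 0) / (1 - 0))) := h1
      rw [add_zero, sub_zero, mul_one, div_one] at h2
      exact h2.mono_left nhdsWithin_le_nhds
    have hlt1 : ∀ᶠ ε in 𝓝[>] (0 : ℝ), ε < 1 := nhdsWithin_le_nhds (Iio_mem_nhds one_pos)
    obtain ⟨ε, ⟨hε1, hε2⟩, hε⟩ :=
      (((hcont.eventually (gt_mem_nhds ha')).and hlt1).and self_mem_nhdsWithin).exists
    have hε0 : (0 : ℝ) < ε := hε
    have h1ε : 0 < 1 - ε := by linarith
    obtain ⟨Λ₀, hΛ₀⟩ := hup ε hε0
    have h4 : Tendsto (fun j : ℕ => (c0 / (1 - ε)) * (j : ℝ)) atTop atTop :=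
      tendsto_natCast_atTop_atTop.const_mul_atTop (by positivity)
    filter_upwards [h4.eventually (eventually_ge_atTop Λ₀)] with j hj2
    have h6 : Λ₀ ≤ (c0 / (1 - ε)) * ((j : ℝ) + 1) := by
      refine hj2.trans ?_
      gcongr
      linarith
    have h5 := hΛ₀ ((c0 / (1 - ε)) * ((j : ℝ) + 1)) h6 (by positivity) j (by
      have : (1 - ε) * (c0 / (1 - ε) * ((j : ℝ) + 1)) * A / (4 * π) = (j : ℝ) + 1 := by
        rw [hc0]
        have := h1ε.ne'
        have := Real.pi_ne_zero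
        field_simp
      rw [this])
    refine lt_of_le_of_lt ?_ hε1
    rw [div_le_iff₀ (by positivity)]
    refine h5.trans (le_of_eq ?_)
    have := h1ε.ne'
    field_simp

end Pool.Agent.Y378.QR
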